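import Pool.Agent.W678.T3.All

set_option autoImplicit false

noncomputable section

open MeasureTheory
open scoped ENNReal

namespace Pool.Agent.Results.MP_5f4cdd_gt.DimensionThreeLargeP

/-- The `L^p`-Mahler volume `M_p(K) = vol(K) ∫ exp(-h_{p,K}(y)) dy` for `0 < p < ∞`, where
`exp(-h_{p,K}(y)) = ((1/vol K) ∫_K exp(p⟨x,y⟩) dx)^(-1/p)`. -/
def mahlerVolume {n : ℕ} (p : ℝ) (K : Set (Fin n → ℝ)) : ℝ≥0∞ :=
  volume K * ∫⁻ y : Fin n → ℝ, ENNReal.ofReal
    (((∫ x in K, Real.exp (p * ∑ i, x i * y i)) / (volume K).toReal) ^ (-(1 / p)))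

/-- the standard simplex `Δ_n` -/
def simplex (n : ℕ) : Set (Fin n → ℝ) := {z | (∀ i, 0 ≤ z i) ∧ ∑ i, z i ≤ 1}

/-- the infimum of `M_p(Δ_n - x)` over `x ∈ Δ_n` -/
def simplexInf (n : ℕ) (p : ℝ) : ℝ≥0∞ :=
  ⨅ x ∈ simplex n, mahlerVolume p ((fun z : Fin n → ℝ => z - x) '' simplex n)

/-- **The non-symmetric `L^p`-Mahler inequality in dimension three for all large `p`**: there is
`p₀` such that for all `p ≥ p₀` and every convex body `K` in `ℝ³` the `L^p`-Mahler volume of `K`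
is at least the infimum of that of the translates of the simplex, and equality holds only if `K`
is the convex hull of at most four points. -/
theorem result :
    ∃ p₀ : ℝ, 0 < p₀ ∧ ∀ p : ℝ, p₀ ≤ p →
      ∀ K : Set (Fin 3 → ℝ), IsCompact K → Convex ℝ K → (interior K).Nonempty →
        simplexInf 3 p ≤ mahlerVolume p K ∧
        (mahlerVolume p K = simplexInf 3 p → ∃ T : Finset (Fin 3 → ℝ),
          T.card ≤ 4 ∧ K = convexHull ℝ (T : Set (Fin 3 → ℝ))) := by
  obtain ⟨p0, hp0, h⟩ := Pool.Agent.W678.T3.all_final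
  refine ⟨p0, hp0, fun p hp K hc hv hi => ?_⟩
  have h1 := h p hp K hc hv hi
  have hle : simplexInf 3 p ≤ Pool.Agent.H131R5.LM.Mp p (Pool.Agent.H131R5.LM.Sn 3) := by
    have h2 := iInf₂_le (f := fun (x : Fin 3 → ℝ) (_ : x ∈ simplex 3) =>
      mahlerVolume p ((fun z : Fin 3 → ℝ => z - x) '' simplex 3))
      _ (Pool.Agent.H131R5.LM.center_mem (n := 3))
    rw [← Pool.Agent.H131R5.LM.image_Dn]
    exact h2
  refine ⟨hle.trans h1.1, fun heq => ?_⟩
  by_contra hcon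
  have hlt := h1.2 fun Q hQ hK => hcon ⟨Q, hQ, hK⟩
  have h3 : Pool.Agent.H131R5.LM.Mp p K = simplexInf 3 p := heq
  rw [h3] at hlt
  exact absurd hle (not_le.2 hlt)

end Pool.Agent.Results.MP_5f4cdd_gt.DimensionThreeLargeP
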