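import Pool.Agent.W679.B16

set_option autoImplicit false

noncomputable section

open MeasureTheory
open scoped ENNReal

namespace Pool.Agent.Results.MP_5f4cdd_gt.LocalMinimality

/-- The `L^p`-Mahler volume `M_p(K) = vol(K) ∫ exp(-h_{p,K}(y)) dy` for `0 < p < ∞`, where
`exp(-h_{p,K}(y)) = ((1/vol K) ∫_K exp(p⟨x,y⟩) dx)^(-1/p)`. -/
def mahlerVolume {n : ℕ} (p : ℝ) (K : Set (Fin n → ℝ)) : ℝ≥0∞ :=
  volume K * ∫⁻ y : Fin n → ℝ, ENNReal.ofReal
    (((∫ x in K, Real.exp (p * ∑ i, x i * y i)) / (volume K).toReal) ^ (-(1 / p)))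

/-- the standard simplex `Δ_n` -/
def simplex (n : ℕ) : Set (Fin n → ℝ) := {z | (∀ i, 0 ≤ z i) ∧ ∑ i, z i ≤ 1}

/-- the infimum of `M_p(Δ_n - x)` over `x ∈ Δ_n` -/
def simplexInf (n : ℕ) (p : ℝ) : ℝ≥0∞ :=
  ⨅ x ∈ simplex n, mahlerVolume p ((fun z : Fin n → ℝ => z - x) '' simplex n)

/-- **Local minimality of the simplex, with the equality case**: in every dimension `n ≥ 2` and for
every `0 < p < ∞` there is `δ > 0` such that the non-symmetric `L^p`-Mahler inequality holds for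
every convex body `K` which lies in the hull of `n + 1` points of volume at most
`(1 + δ) vol(K)`, and equality forces `K` itself to be the hull of at most `n + 1` points. -/
theorem result (n : ℕ) (hn : 2 ≤ n) (p : ℝ) (hp : 0 < p) :
    ∃ δ : ℝ, 0 < δ ∧
      ∀ K : Set (Fin n → ℝ), IsCompact K → Convex ℝ K → (interior K).Nonempty →
        ∀ Q : Finset (Fin n → ℝ), Q.card ≤ n + 1 →
          K ⊆ convexHull ℝ (Q : Set (Fin n → ℝ)) →
          volume (convexHull ℝ (Q : Set (Fin n → ℝ))) ≤ ENNReal.ofReal (1 + δ) * volume K →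
            simplexInf n p ≤ mahlerVolume p K ∧
            (mahlerVolume p K = simplexInf n p → ∃ T : Finset (Fin n → ℝ),
              T.card ≤ n + 1 ∧ K = convexHull ℝ (T : Set (Fin n → ℝ))) := by
  obtain ⟨m, rfl⟩ : ∃ m, n = m + 2 := ⟨n - 2, by omega⟩
  obtain ⟨δ, hδ, h⟩ := Pool.Agent.W679.B.local_min hp m
  refine ⟨δ, hδ, fun K hc hv hi Q hQ hKQ hvol => ?_⟩
  have h1 := h K hc hv hi Q hQ hKQ hvol
  have hle : simplexInf (m + 2) p ≤ Pool.Agent.H131R5.LM.Mp p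
      (Pool.Agent.H131R5.LM.Sn (m + 2)) := by
    have h2 := iInf₂_le (f := fun (x : Fin (m + 2) → ℝ) (_ : x ∈ simplex (m + 2)) =>
      mahlerVolume p ((fun z : Fin (m + 2) → ℝ => z - x) '' simplex (m + 2)))
      _ (Pool.Agent.H131R5.LM.center_mem (n := m + 2))
    rw [← Pool.Agent.H131R5.LM.image_Dn]
    exact h2
  refine ⟨hle.trans h1.1, fun heq => ?_⟩
  by_contra hcon
  have hlt : Pool.Agent.H131R5.LM.Mp p (Pool.Agent.H131R5.LM.Sn (m + 2)) <
      Pool.Agent.H131R5.LM.Mp p K := by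
    refine h1.2 fun M x0 hKM => hcon ?_
    obtain ⟨T, hT1, hT2⟩ := Pool.Agent.W679.B.simplex_hull M x0
    exact ⟨T, hT1, hKM.trans hT2⟩
  have h3 : Pool.Agent.H131R5.LM.Mp p K = simplexInf (m + 2) p := heq
  rw [h3] at hlt
  exact absurd hle (not_le.2 hlt)

end Pool.Agent.Results.MP_5f4cdd_gt.LocalMinimality
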