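import Pool.Agent.W679.A6

set_option autoImplicit false

noncomputable section

open MeasureTheory
open scoped ENNReal

namespace Pool.Agent.Results.MP_5f4cdd_gt.PlanarSummands

/-- The `L^p`-Mahler volume `M_p(K) = vol(K) ∫ exp(-h_{p,K}(y)) dy` for `0 < p < ∞`, where
`exp(-h_{p,K}(y)) = ((1/vol K) ∫_K exp(p⟨x,y⟩) dx)^(-1/p)`. -/
def mahlerVolume {n : ℕ} (p : ℝ) (K : Set (Fin n → ℝ)) : ℝ≥0∞ :=
  volume K * ∫⁻ y : Fin n → ℝ, ENNReal.ofReal
    (((∫ x in K, Real.exp (p * ∑ i, x i * y i)) / (volume K).toReal) ^ (-(1 / p)))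

/-- the standard simplex `Δ_n` -/
def simplex (n : ℕ) : Set (Fin n → ℝ) := {z | (∀ i, 0 ≤ z i) ∧ ∑ i, z i ≤ 1}

/-- the infimum of `M_p(Δ_n - x)` over `x ∈ Δ_n` -/
def simplexInf (n : ℕ) (p : ℝ) : ℝ≥0∞ :=
  ⨅ x ∈ simplex n, mahlerVolume p ((fun z : Fin n → ℝ => z - x) '' simplex n)

/-- **The non-symmetric `L^p`-Mahler inequality for free sums of planar convex bodies and
simplices**: the sets `A i` share the point `q`, `A i ⊆ q + V i`, the dimensions of the `V i` sum to
at most `n`, and the hull of the union has interior points.  With `n = 2` and the single piece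
`A = K`, `V = ℝ²` this is the inequality for every planar convex body `K`, in every position. -/
theorem result (n : ℕ) (p : ℝ) (hp : 0 < p) (m : ℕ) (V : Fin m → Submodule ℝ (Fin n → ℝ))
    (A : Fin m → Set (Fin n → ℝ)) (q : Fin n → ℝ) (hV : ∑ i, Module.finrank ℝ (V i) ≤ n)
    (hA : ∀ i, IsCompact (A i) ∧ Convex ℝ (A i) ∧ q ∈ A i ∧ ∀ x ∈ A i, x - q ∈ V i)
    (ht : ∀ i, Module.finrank ℝ (V i) = 2 ∨ ∃ S : Finset (Fin n → ℝ),
      S.card ≤ Module.finrank ℝ (V i) + 1 ∧ A i = convexHull ℝ (S : Set (Fin n → ℝ)))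
    (hi : (interior (convexHull ℝ (⋃ i, A i))).Nonempty) :
    simplexInf n p ≤ mahlerVolume p (convexHull ℝ (⋃ i, A i)) := by
  classical
  have hcv : ∀ X : Set (Fin n → ℝ), Convex ℝ X → Convex ℝ ((fun x => x - q) '' X) := by
    intro X hX
    have h1 := hX.translate (-q)
    have h2 : (fun z => -q + z) '' X = (fun x => x - q) '' X := by
      refine Set.image_congr fun z _ => ?_
      abel
    rwa [h2] at h1
  have hbody : convexHull ℝ (⋃ i, (fun x => x - q) '' A i) =
      (fun x => x - q) '' convexHull ℝ (⋃ i, A i) := by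
    rw [Pool.Agent.H131R5.LC.hull_sub, Set.image_iUnion]
  have hint : (interior (convexHull ℝ (⋃ i, (fun x => x - q) '' A i))).Nonempty := by
    rw [hbody]
    have h2 : (fun x => x - q) '' interior (convexHull ℝ (⋃ i, A i)) =
        interior ((fun x => x - q) '' convexHull ℝ (⋃ i, A i)) :=
      (Homeomorph.subRight q).image_interior _
    rw [← h2]
    exact hi.image _
  have h := Pool.Agent.W679.A.full hp V hV (fun i => (fun x => x - q) '' A i)
    (fun i => (hA i).1.image (by fun_prop)) (fun i => hcv _ (hA i).2.1)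
    (fun i => ⟨q, (hA i).2.2.1, sub_self q⟩)
    (fun i => by rintro _ ⟨x, hx, rfl⟩; exact (hA i).2.2.2 x hx)
    (fun i => by
      rcases ht i with h | ⟨S, hS, hAS⟩
      · exact Or.inl h
      · refine Or.inr ⟨S.image (fun x => x - q), Finset.card_image_le.trans hS, ?_⟩
        rw [hAS, Pool.Agent.H131R5.LC.hull_sub, Finset.coe_image])
    hint (-q)
  have himg : (fun x : Fin n → ℝ => x - -q) '' convexHull ℝ (⋃ i, (fun x => x - q) '' A i) =
      convexHull ℝ (⋃ i, A i) := by
    rw [hbody, Set.image_image]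
    simp
  rw [himg] at h
  exact h

end Pool.Agent.Results.MP_5f4cdd_gt.PlanarSummands
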